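import Pool.Agent.H82.Walks

set_option autoImplicit false

namespace Pool.Agent.Results.MP_55e6a3_gt.ClosedImage

open Pool.Agent.H82.WTheta in
theorem result : ∃ (X Y : Type) (_ : TopologicalSpace X) (_ : TopologicalSpace Y),
    T35Space X ∧ T35Space Y ∧ WeaklyThetaRefinable X ∧
    ∃ f : X → Y, Continuous f ∧ Function.Surjective f ∧ IsClosedMap f ∧
      ¬ WeaklyThetaRefinable Y :=
  Pool.Agent.H82.Walks.main

end Pool.Agent.Results.MP_55e6a3_gt.ClosedImage
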