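import Pool.Agent.H82.WThetaPerfect

set_option autoImplicit false

namespace Pool.Agent.Results.MP_55e6a3_gt.PerfectImage

universe u v

open Pool.Agent.H82.WTheta in
theorem result : ∀ (X : Type u) (Y : Type v) [TopologicalSpace X] [TopologicalSpace Y]
    (f : X → Y), Continuous f → Function.Surjective f → IsClosedMap f →
    (∀ y, IsCompact (f ⁻¹' {y})) → WeaklyThetaRefinable X → WeaklyThetaRefinable Y :=
  fun _ _ _ _ f h1 h2 h3 h4 h5 => perfect f h1 h2 h3 h4 h5

end Pool.Agent.Results.MP_55e6a3_gt.PerfectImage
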